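import Mathlib
import Pool.Agent.K9h1.HB.Cover

/-!
K9h1/MD (helper1, MP_0430e4_lc): the largest size of a binary code.
-/

set_option autoImplicit false

open Finset Filter Topology

namespace Pool.Agent.K9h1.MD

open Pool.Agent.K9h1.HB

/-- the largest size of a binary code of length `n` and minimum distance at least `d` -/
noncomputable def A (n d : ℕ) : ℕ :=
  sSup {k | ∃ C : Finset (Fin n → Bool),
    (∀ x ∈ C, ∀ y ∈ C, x ≠ y → d ≤ hammingDist x y) ∧ C.card = k}

lemma A_bdd (n d : ℕ) : BddAbove {k | ∃ C : Finset (Fin n → Bool),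
    (∀ x ∈ C, ∀ y ∈ C, x ≠ y → d ≤ hammingDist x y) ∧ C.card = k} := by
  refine ⟨2 ^ n, ?_⟩
  rintro k ⟨C, -, rfl⟩
  refine (Finset.card_le_univ C).trans ?_
  simp

lemma card_le_A {n d : ℕ} (C : Finset (Fin n → Bool))
    (hC : ∀ x ∈ C, ∀ y ∈ C, x ≠ y → d ≤ hammingDist x y) : C.card ≤ A n d :=
  le_csSup (A_bdd n d) ⟨C, hC, rfl⟩

lemma exists_A (n d : ℕ) : ∃ C : Finset (Fin n → Bool),
    (∀ x ∈ C, ∀ y ∈ C, x ≠ y → d ≤ hammingDist x y) ∧ C.card = A n d :=
  Nat.sSup_mem (s := {k | ∃ C : Finset (Fin n → Bool),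
    (∀ x ∈ C, ∀ y ∈ C, x ≠ y → d ≤ hammingDist x y) ∧ C.card = k}) ⟨0, ∅, by simp, by simp⟩
    (A_bdd n d)

lemma one_le_A (n d : ℕ) : 1 ≤ A n d := by
  refine (Finset.card_singleton (fun _ : Fin n => false)).ge.trans (card_le_A _ ?_)
  intro x hx y hy hxy
  rw [Finset.mem_singleton] at hx hy
  exact absurd (hx.trans hy.symm) hxy

lemma A_le_pow (n d : ℕ) : A n d ≤ 2 ^ n := by
  obtain ⟨C, -, h⟩ := exists_A n d
  rw [← h]
  refine (Finset.card_le_univ C).trans ?_
  simp

lemma A_anti (n : ℕ) {d d' : ℕ} (h : d ≤ d') : A n d' ≤ A n d := by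
  obtain ⟨C, hC, hc⟩ := exists_A n d'
  rw [← hc]
  exact card_le_A C fun x hx y hy hxy => h.trans (hC x hx y hy hxy)

/-- shortening by one coordinate -/
lemma A_succ (n d : ℕ) : A (n + 1) d ≤ 2 * A n d := by
  classical
  obtain ⟨C, hC, hc⟩ := exists_A (n + 1) d
  rw [← hc]
  have h1 : ∀ b : Bool, (C.filter fun x => x 0 = b).card ≤ A n d := by
    intro b
    have hinj : Set.InjOn (fun (x : Fin (n + 1) → Bool) (i : Fin n) => x i.succ)
        (C.filter fun x => x 0 = b : Finset (Fin (n + 1) → Bool)) := by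
      intro x hx y hy hxy
      rw [Finset.mem_coe, Finset.mem_filter] at hx hy
      funext i
      refine Fin.cases ?_ (fun j => ?_) i
      · rw [hx.2, hy.2]
      · exact congrFun hxy j
    rw [← Finset.card_image_of_injOn hinj]
    refine card_le_A _ ?_
    intro u hu v hv huv
    rw [Finset.mem_image] at hu hv
    obtain ⟨x, hx, rfl⟩ := hu
    obtain ⟨y, hy, rfl⟩ := hv
    rw [Finset.mem_filter] at hx hy
    have hne : x ≠ y := fun h => huv (by rw [h])
    refine (hC x hx.1 y hy.1 hne).trans (le_of_eq ?_)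
    unfold hammingDist
    have h0 : x 0 = y 0 := by rw [hx.2, hy.2]
    rw [Finset.card_filter, Finset.card_filter, Fin.sum_univ_succ, if_neg (not_not.2 h0), zero_add]
  have h2 : C.card = (C.filter fun x => x 0 = true).card + (C.filter fun x => x 0 = false).card := by
    rw [← Finset.card_filter_add_card_filter_not (fun x : Fin (n + 1) → Bool => x 0 = true)]
    congr 2
    ext x
    simp
  have := h1 true
  have := h1 false
  omega

/-- the Gilbert bound -/
lemma gilbert (n d : ℕ) : 2 ^ n ≤ A n (d + 1) * vol n d := by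
  classical
  obtain ⟨C, hC, hc⟩ := exists_A n (d + 1)
  have hcov : ∀ z : Fin n → Bool, ∃ c ∈ C, hammingDist z c ≤ d := by
    intro z
    by_contra hcon
    push Not at hcon
    have hz : z ∉ C := fun h => by
      have := hcon z h
      rw [hammingDist_self] at this
      omega
    have h1 : (insert z C).card ≤ A n (d + 1) := by
      refine card_le_A _ ?_
      intro x hx y hy hxy
      rw [Finset.mem_insert] at hx hy
      rcases hx with rfl | hx <;> rcases hy with rfl | hy
      · exact absurd rfl hxy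
      · exact hcon y hy
      · rw [hammingDist_comm]
        exact hcon x hx
      · exact hC x hx y hy hxy
    rw [Finset.card_insert_of_notMem hz] at h1
    omega
  have h2 : (univ : Finset (Fin n → Bool)) ⊆
      C.biUnion fun c => univ.filter fun z => hammingDist c z ≤ d := by
    intro z _
    obtain ⟨c, hcC, hcz⟩ := hcov z
    rw [Finset.mem_biUnion]
    exact ⟨c, hcC, by rw [Finset.mem_filter, hammingDist_comm]; exact ⟨Finset.mem_univ _, hcz⟩⟩
  have h3 := Finset.card_le_card h2
  rw [Finset.card_univ, Fintype.card_fun, Fintype.card_bool, Fintype.card_fin] at h3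
  refine h3.trans (Finset.card_biUnion_le.trans ?_)
  rw [← hc, Finset.sum_congr rfl fun c _ => card_ball n d c, Finset.sum_const, smul_eq_mul]

end Pool.Agent.K9h1.MD
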