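import Mathlib
import Pool.Agent.K9h1.MD.Rate

/-!
K9h1/MD (helper1, MP_0430e4_lc): random puncturing of a binary code.
-/

set_option autoImplicit false

open Finset Filter Topology

namespace Pool.Agent.K9h1.MD

open Pool.Agent.K9h1.HB

/-- the probability weight of the mode -/
lemma mode_ge {n t : ℕ} (ht : t ≤ n) :
    (n : ℝ) ^ n ≤ (n + 1) * ((n.choose t : ℝ) * ((t : ℝ) ^ t * ((n : ℝ) - t) ^ (n - t))) := by
  have h2 := add_pow (t : ℝ) ((n : ℝ) - t) n
  rw [add_sub_cancel] at h2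
  rw [h2]
  calc ∑ i ∈ range (n + 1), (t : ℝ) ^ i * ((n : ℝ) - t) ^ (n - i) * (n.choose i : ℝ)
      ≤ ∑ _i ∈ range (n + 1), (n.choose t : ℝ) * ((t : ℝ) ^ t * ((n : ℝ) - t) ^ (n - t)) := by
        refine Finset.sum_le_sum fun i hi => ?_
        rw [Finset.mem_range] at hi
        have := term_le ht i (by omega)
        linarith
    _ = (n + 1) * ((n.choose t : ℝ) * ((t : ℝ) ^ t * ((n : ℝ) - t) ^ (n - t))) := by
        rw [Finset.sum_const, Finset.card_range, nsmul_eq_mul]
        push_cast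
        ring

/-- the generating function of the size of the intersection with a fixed set -/
lemma mgf {n t : ℕ} (ht : t ≤ n) (D : Finset (Fin n)) {s : ℝ} (hs : 0 ≤ s) :
    (∑ T ∈ powersetCard t (univ : Finset (Fin n)), s ^ (T ∩ D).card) *
      ((t : ℝ) ^ t * ((n : ℝ) - t) ^ (n - t)) ≤
      ((t : ℝ) * s + ((n : ℝ) - t)) ^ D.card * (n : ℝ) ^ (n - D.card) := by
  classical
  have hnt : (0 : ℝ) ≤ (n : ℝ) - t := by
    have : (t : ℝ) ≤ n := by exact_mod_cast ht
    linarith
  have h1 := Finset.prod_add (fun i : Fin n => (t : ℝ) * (if i ∈ D then s else 1))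
    (fun _ => (n : ℝ) - t) univ
  have h2 : ∏ i : Fin n, ((t : ℝ) * (if i ∈ D then s else 1) + ((n : ℝ) - t)) =
      ((t : ℝ) * s + ((n : ℝ) - t)) ^ D.card * (n : ℝ) ^ (n - D.card) := by
    rw [← Finset.prod_mul_prod_compl D]
    congr 1
    · rw [Finset.prod_congr rfl fun i hi => by rw [if_pos hi], Finset.prod_const]
    · rw [Finset.prod_congr rfl fun i hi => by
        rw [if_neg (Finset.mem_compl.1 hi), mul_one, add_sub_cancel], Finset.prod_const,
        Finset.card_compl, Fintype.card_fin]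
  rw [← h2, h1, Finset.sum_mul]
  refine (Finset.sum_le_sum (f := fun T => s ^ (T ∩ D).card *
      ((t : ℝ) ^ t * ((n : ℝ) - t) ^ (n - t))) (g := fun T : Finset (Fin n) =>
      (∏ i ∈ T, (t : ℝ) * (if i ∈ D then s else 1)) * ∏ i ∈ univ \ T, ((n : ℝ) - t))
      fun T hT => ?_).trans
    (Finset.sum_le_sum_of_subset_of_nonneg (f := fun T : Finset (Fin n) =>
      (∏ i ∈ T, (t : ℝ) * (if i ∈ D then s else 1)) * ∏ i ∈ univ \ T, ((n : ℝ) - t)) ?_ ?_)
  · rw [Finset.mem_powersetCard] at hT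
    rw [Finset.prod_mul_distrib, Finset.prod_const, Finset.prod_const, hT.2,
      Finset.card_sdiff_of_subset hT.1, hT.2, Finset.card_univ, Fintype.card_fin,
      Finset.prod_ite_mem, Finset.prod_const]
    exact le_of_eq (by ring)
  · intro T hT
    rw [Finset.mem_powersetCard] at hT
    exact Finset.mem_powerset.2 hT.1
  · intro T _ _
    refine mul_nonneg (Finset.prod_nonneg fun i _ => ?_) (Finset.prod_nonneg fun i _ => hnt)
    split_ifs <;> positivity

/-- the tail bound for the intersection of a uniform random `t`-set with a fixed set -/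
lemma tail {n t : ℕ} (hn : 0 < n) (ht : t ≤ n) (D : Finset (Fin n)) {θ r : ℝ} (hθ : 0 ≤ θ) :
    (((powersetCard t (univ : Finset (Fin n))).filter fun T => r ≤ ((T ∩ D).card : ℝ)).card : ℝ) ≤
      (n + 1) * Real.exp ((t : ℝ) / n * (Real.exp θ - 1) * D.card - θ * r) * n.choose t := by
  classical
  have hnR : (0 : ℝ) < n := by exact_mod_cast hn
  have hnt : (0 : ℝ) ≤ (n : ℝ) - t := by
    have : (t : ℝ) ≤ n := by exact_mod_cast ht
    linarith
  have ht0 : (0 : ℝ) ≤ t := Nat.cast_nonneg t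
  have hDn : D.card ≤ n := by
    have := Finset.card_le_univ D
    rwa [Fintype.card_fin] at this
  set P : Finset (Finset (Fin n)) := powersetCard t univ with hP
  set W : ℝ := (t : ℝ) ^ t * ((n : ℝ) - t) ^ (n - t) with hW
  have hs : 0 ≤ Real.exp θ := (Real.exp_pos θ).le
  have h1 := mgf ht D hs
  have h2 := mode_ge ht
  rw [← hP, ← hW] at h1
  rw [← hW] at h2
  have hWpos : 0 < W := by
    rcases (show 0 ≤ W by positivity).lt_or_eq with h | h
    · exact h
    · rw [← h, mul_zero, mul_zero] at h2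
      exact absurd h2 (not_le.2 (by positivity))
  -- Markov
  have h3 : ((P.filter fun T => r ≤ ((T ∩ D).card : ℝ)).card : ℝ) * Real.exp (θ * r) ≤
      ∑ T ∈ P, Real.exp θ ^ (T ∩ D).card := by
    calc ((P.filter fun T => r ≤ ((T ∩ D).card : ℝ)).card : ℝ) * Real.exp (θ * r)
        = ∑ T ∈ P.filter (fun T => r ≤ ((T ∩ D).card : ℝ)), Real.exp (θ * r) := by
          rw [Finset.sum_const, nsmul_eq_mul]
      _ ≤ ∑ T ∈ P.filter (fun T => r ≤ ((T ∩ D).card : ℝ)), Real.exp θ ^ (T ∩ D).card := by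
          refine Finset.sum_le_sum fun T hT => ?_
          rw [Finset.mem_filter] at hT
          rw [← Real.exp_nat_mul]
          refine Real.exp_le_exp.2 ?_
          rw [mul_comm]
          exact mul_le_mul_of_nonneg_right hT.2 hθ
      _ ≤ ∑ T ∈ P, Real.exp θ ^ (T ∩ D).card :=
          Finset.sum_le_sum_of_subset_of_nonneg (Finset.filter_subset _ _)
            fun _ _ _ => by positivity
  -- the exponential bound
  have h4 : ((t : ℝ) * Real.exp θ + ((n : ℝ) - t)) ^ D.card ≤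
      (n : ℝ) ^ D.card * Real.exp ((t : ℝ) / n * (Real.exp θ - 1) * D.card) := by
    have h5 : (t : ℝ) * Real.exp θ + ((n : ℝ) - t) ≤
        n * Real.exp ((t : ℝ) / n * (Real.exp θ - 1)) := by
      have h6 := Real.add_one_le_exp ((t : ℝ) / n * (Real.exp θ - 1))
      calc (t : ℝ) * Real.exp θ + ((n : ℝ) - t)
          = n * ((t : ℝ) / n * (Real.exp θ - 1) + 1) := by field_simp; ring
        _ ≤ _ := mul_le_mul_of_nonneg_left h6 hnR.le
    refine (pow_le_pow_left₀ (by positivity) h5 _).trans (le_of_eq ?_)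
    rw [mul_pow, ← Real.exp_nat_mul]
    congr 2
    ring
  have h7 : (∑ T ∈ P, Real.exp θ ^ (T ∩ D).card) * W ≤
      Real.exp ((t : ℝ) / n * (Real.exp θ - 1) * D.card) * ((n + 1) * ((n.choose t : ℝ) * W)) := by
    refine h1.trans ?_
    calc ((t : ℝ) * Real.exp θ + ((n : ℝ) - t)) ^ D.card * (n : ℝ) ^ (n - D.card)
        ≤ ((n : ℝ) ^ D.card * Real.exp ((t : ℝ) / n * (Real.exp θ - 1) * D.card)) *
            (n : ℝ) ^ (n - D.card) := mul_le_mul_of_nonneg_right h4 (by positivity)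
      _ = Real.exp ((t : ℝ) / n * (Real.exp θ - 1) * D.card) * (n : ℝ) ^ n := by
          rw [mul_comm ((n : ℝ) ^ D.card), mul_assoc, ← pow_add, Nat.add_sub_cancel' hDn]
      _ ≤ _ := mul_le_mul_of_nonneg_left h2 (Real.exp_pos _).le
  have h8 : (∑ T ∈ P, Real.exp θ ^ (T ∩ D).card) ≤
      Real.exp ((t : ℝ) / n * (Real.exp θ - 1) * D.card) * ((n + 1) * (n.choose t : ℝ)) := by
    refine le_of_mul_le_mul_right (h7.trans (le_of_eq ?_)) hWpos
    ring
  have h9 := h3.trans h8
  rw [Real.exp_sub, ← mul_div_assoc, div_mul_eq_mul_div, le_div_iff₀ (Real.exp_pos _)]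
  refine h9.trans (le_of_eq ?_)
  ring

/-- the code restricted to the complement of a set of coordinates -/
lemma card_le_restrict {n t : ℕ} (B : Finset (Fin n → Bool)) {T : Finset (Fin n)}
    (hT : T.card = t) {d : ℕ} (hd : 1 ≤ d)
    (hB : ∀ x ∈ B, ∀ y ∈ B, x ≠ y → d ≤ (univ.filter fun i => x i ≠ y i ∧ i ∉ T).card) :
    B.card ≤ A (n - t) d := by
  classical
  have hS : (Tᶜ).card = n - t := by rw [Finset.card_compl, Fintype.card_fin, hT]
  let e := (Tᶜ).orderEmbOfFin hS
  have hdist : ∀ x y : Fin n → Bool, hammingDist (fun j => x (e j)) (fun j => y (e j)) =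
      (univ.filter fun i => x i ≠ y i ∧ i ∉ T).card := by
    intro x y
    unfold hammingDist
    rw [← Finset.card_map e.toEmbedding]
    congr 1
    ext i
    rw [Finset.mem_map, Finset.mem_filter]
    constructor
    · rintro ⟨j, hj, rfl⟩
      rw [Finset.mem_filter] at hj
      refine ⟨Finset.mem_univ _, hj.2, ?_⟩
      exact Finset.mem_compl.1 (Finset.orderEmbOfFin_mem _ hS j)
    · rintro ⟨-, h1, h2⟩
      have h3 : i ∈ Set.range e := by
        rw [Finset.range_orderEmbOfFin]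
        exact Finset.mem_coe.2 (Finset.mem_compl.2 h2)
      obtain ⟨j, rfl⟩ := h3
      exact ⟨j, Finset.mem_filter.2 ⟨Finset.mem_univ _, h1⟩, rfl⟩
  have hinj : Set.InjOn (fun (x : Fin n → Bool) (j : Fin (n - t)) => x (e j)) B := by
    intro x hx y hy hxy
    by_contra hne
    have h1 := hB x hx y hy hne
    rw [← hdist] at h1
    rw [show (fun j => x (e j)) = fun j => y (e j) from hxy, hammingDist_self] at h1
    omega
  rw [← Finset.card_image_of_injOn hinj]
  refine card_le_A _ ?_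
  intro u hu v hv huv
  rw [Finset.mem_image] at hu hv
  obtain ⟨x, hx, rfl⟩ := hu
  obtain ⟨y, hy, rfl⟩ := hv
  rw [hdist]
  exact hB x hx y hy fun h => huv (by rw [h])

/-- random puncturing -/
lemma puncture {n t : ℕ} (ht : t ≤ n) (B : Finset (Fin n → Bool)) {d u r M τ : ℝ}
    (hdr : 0 < d - r) (hur : d - r ≤ u - t)
    (hmin : ∀ x ∈ B, ∀ y ∈ B, x ≠ y → d ≤ hammingDist x y)
    (hM : ∀ x ∈ B, ((B.filter fun y => y ≠ x ∧ (hammingDist x y : ℝ) ≤ u).card : ℝ) ≤ M)
    (hτ : ∀ D : Finset (Fin n), (D.card : ℝ) ≤ u →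
      (((powersetCard t (univ : Finset (Fin n))).filter fun T => r ≤ ((T ∩ D).card : ℝ)).card : ℝ)
        ≤ τ * n.choose t)
    (hMτ : M * τ ≤ 1 / 2) (hτ0 : 0 ≤ τ) :
    B.card ≤ 2 * A (n - t) ⌈d - r⌉₊ := by
  classical
  set P : Finset (Finset (Fin n)) := powersetCard t univ with hP
  have hPcard : P.card = n.choose t := by
    rw [hP, Finset.card_powersetCard, Finset.card_univ, Fintype.card_fin]
  have hPpos : 0 < P.card := by rw [hPcard]; exact Nat.choose_pos ht
  let Df : (Fin n → Bool) → (Fin n → Bool) → Finset (Fin n) := fun x y =>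
    univ.filter fun i => x i ≠ y i
  have hDf : ∀ x y, (Df x y).card = hammingDist x y := fun x y => rfl
  -- the bad pairs for a puncturing set
  let bad : Finset (Fin n) → Finset ((Fin n → Bool) × (Fin n → Bool)) := fun T =>
    (B ×ˢ B).filter fun z => z.2 ≠ z.1 ∧ (hammingDist z.1 z.2 : ℝ) ≤ u ∧
      r ≤ ((T ∩ Df z.1 z.2).card : ℝ)
  have h1 : ∑ T ∈ P, ((bad T).card : ℝ) ≤ (B.card : ℝ) * M * (τ * n.choose t) := by
    have h2 : ∑ T ∈ P, ((bad T).card : ℝ) = ∑ z ∈ (B ×ˢ B).filter (fun z => z.2 ≠ z.1 ∧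
        (hammingDist z.1 z.2 : ℝ) ≤ u), ((P.filter fun T => r ≤ ((T ∩ Df z.1 z.2).card : ℝ)).card : ℝ)
        := by
      have h3 : ∀ T, ((bad T).card : ℝ) = ∑ z ∈ (B ×ˢ B).filter (fun z => z.2 ≠ z.1 ∧
          (hammingDist z.1 z.2 : ℝ) ≤ u), if r ≤ ((T ∩ Df z.1 z.2).card : ℝ) then (1 : ℝ) else 0 := by
        intro T
        rw [← Finset.sum_filter, Finset.filter_filter, Finset.sum_const, nsmul_eq_mul, mul_one]
        congr 2
        ext z
        simp only [bad, Finset.mem_filter, and_assoc]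
      simp_rw [h3]
      rw [Finset.sum_comm]
      refine Finset.sum_congr rfl fun z _ => ?_
      rw [← Finset.sum_filter, Finset.sum_const, nsmul_eq_mul, mul_one]
    rw [h2]
    have h4 : ((((B ×ˢ B).filter (fun z => z.2 ≠ z.1 ∧ (hammingDist z.1 z.2 : ℝ) ≤ u)).card : ℕ) : ℝ)
        ≤ (B.card : ℝ) * M := by
      have h5 : ((B ×ˢ B).filter (fun z => z.2 ≠ z.1 ∧ (hammingDist z.1 z.2 : ℝ) ≤ u)).card =
          ∑ x ∈ B, (B.filter fun y => y ≠ x ∧ (hammingDist x y : ℝ) ≤ u).card := by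
        rw [Finset.card_filter, Finset.sum_product]
        refine Finset.sum_congr rfl fun x _ => ?_
        rw [Finset.card_filter]
      rw [h5]
      push_cast
      refine (Finset.sum_le_sum fun x hx => hM x hx).trans ?_
      rw [Finset.sum_const, nsmul_eq_mul]
    calc ∑ z ∈ (B ×ˢ B).filter (fun z => z.2 ≠ z.1 ∧
        (hammingDist z.1 z.2 : ℝ) ≤ u), ((P.filter fun T => r ≤ ((T ∩ Df z.1 z.2).card : ℝ)).card : ℝ)
        ≤ ∑ z ∈ (B ×ˢ B).filter (fun z => z.2 ≠ z.1 ∧
        (hammingDist z.1 z.2 : ℝ) ≤ u), τ * n.choose t := by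
          refine Finset.sum_le_sum fun z hz => ?_
          rw [Finset.mem_filter] at hz
          refine hτ _ ?_
          rw [hDf]
          exact hz.2.2
      _ ≤ (B.card : ℝ) * M * (τ * n.choose t) := by
          rw [Finset.sum_const, nsmul_eq_mul]
          exact mul_le_mul_of_nonneg_right h4 (by positivity)
  -- a good puncturing set
  obtain ⟨T, hTP, hT⟩ : ∃ T ∈ P, ((bad T).card : ℝ) ≤ (B.card : ℝ) / 2 := by
    by_contra hcon
    push Not at hcon
    have h2 : ∑ T ∈ P, (B.card : ℝ) / 2 < ∑ T ∈ P, ((bad T).card : ℝ) :=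
      Finset.sum_lt_sum_of_nonempty (Finset.card_pos.1 hPpos) fun T hT => hcon T hT
    rw [Finset.sum_const, nsmul_eq_mul, hPcard] at h2
    have h3 := h2.trans_le h1
    have hB0 : (0 : ℝ) ≤ B.card := Nat.cast_nonneg _
    have hC0 : (0 : ℝ) ≤ n.choose t := Nat.cast_nonneg _
    have h4 : (B.card : ℝ) * M * (τ * n.choose t) ≤ (n.choose t : ℝ) * (B.card / 2) := by
      calc (B.card : ℝ) * M * (τ * n.choose t) = (M * τ) * ((B.card : ℝ) * n.choose t) := by ring
        _ ≤ 1 / 2 * ((B.card : ℝ) * n.choose t) :=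
          mul_le_mul_of_nonneg_right hMτ (by positivity)
        _ = _ := by ring
    linarith
  rw [hP, Finset.mem_powersetCard] at hTP
  -- the codewords without a bad partner
  set B' := B.filter fun x => ∀ y ∈ B, (x, y) ∉ bad T with hB'
  have h5 : (B.filter fun x => ¬ ∀ y ∈ B, (x, y) ∉ bad T).card ≤ (bad T).card := by
    have h6 : (B.filter fun x => ¬ ∀ y ∈ B, (x, y) ∉ bad T) ⊆ (bad T).image Prod.fst := by
      intro x hx
      rw [Finset.mem_filter] at hx
      obtain ⟨hx1, hx2⟩ := hx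
      push Not at hx2
      obtain ⟨y, hy, hxy⟩ := hx2
      exact Finset.mem_image.2 ⟨(x, y), hxy, rfl⟩
    exact (Finset.card_le_card h6).trans Finset.card_image_le
  have h7 : B.card ≤ 2 * B'.card := by
    have h8 := Finset.card_filter_add_card_filter_not (s := B) (fun x => ∀ y ∈ B, (x, y) ∉ bad T)
    rw [← hB'] at h8
    have h9 : (((B.filter fun x => ¬ ∀ y ∈ B, (x, y) ∉ bad T).card : ℕ) : ℝ) ≤ (B.card : ℝ) / 2 := by
      refine le_trans ?_ hT
      exact_mod_cast h5
    have h10 : (B'.card : ℝ) + ((B.filter fun x => ¬ ∀ y ∈ B, (x, y) ∉ bad T).card : ℕ) = B.card := by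
      exact_mod_cast h8
    have : (B.card : ℝ) ≤ 2 * B'.card := by linarith
    exact_mod_cast this
  refine h7.trans (Nat.mul_le_mul_left 2 ?_)
  refine card_le_restrict B' hTP.2 (Nat.one_le_iff_ne_zero.2 (Nat.ceil_pos.2 hdr).ne') ?_
  intro x hx y hy hxy
  rw [hB', Finset.mem_filter] at hx hy
  have h11 := hx.2 y hy.1
  rw [Nat.ceil_le]
  have h12 : (univ.filter fun i => x i ≠ y i ∧ i ∉ T) = Df x y \ T := by
    ext i
    simp [Df]
  rw [h12]
  have h13 : (Df x y \ T).card + (T ∩ Df x y).card = hammingDist x y := by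
    rw [Finset.inter_comm, Finset.card_sdiff_add_card_inter, hDf]
  have h14 : ((Df x y \ T).card : ℝ) = hammingDist x y - (T ∩ Df x y).card := by
    rw [← h13]; push_cast; ring
  rw [h14]
  by_cases hu : (hammingDist x y : ℝ) ≤ u
  · have h15 : ((T ∩ Df x y).card : ℝ) < r := by
      by_contra hcon
      push Not at hcon
      exact h11 (Finset.mem_filter.2 ⟨Finset.mem_product.2 ⟨hx.1, hy.1⟩, hxy.symm, hu, hcon⟩)
    have := hmin x hx.1 y hy.1 hxy
    linarith
  · push Not at hu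
    have h16 : ((T ∩ Df x y).card : ℝ) ≤ t := by
      rw [← hTP.2]
      exact_mod_cast Finset.card_le_card Finset.inter_subset_left
    linarith

end Pool.Agent.K9h1.MD
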