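import Mathlib
import Pool.Agent.K9h1.MD.Punct

/-!
K9h1/MD (helper1, MP_0430e4_lc): the rate function of an abstract size function of codes (all binary
codes, or linear codes): Gilbert-Varshamov bound, Lipschitz continuity and the inequality behind
random puncturing.
-/

set_option autoImplicit false

open Finset Filter Topology

namespace Pool.Agent.K9h1.MD

open Pool.Agent.K9h1.HB

/-- the properties of the size function used below -/
structure Good (F : ℕ → ℕ → ℕ) : Prop where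
  one_le : ∀ n d, 1 ≤ F n d
  le_pow : ∀ n d, F n d ≤ 2 ^ n
  anti : ∀ n {d d' : ℕ}, d ≤ d' → F n d' ≤ F n d
  succ : ∀ n d, F (n + 1) d ≤ 2 * F n d
  gilbert : ∀ n d, 2 ^ n ≤ F n (d + 1) * vol n d

/-- the asymptotic rate of a size function -/
noncomputable def rate (F : ℕ → ℕ → ℕ) (δ : ℝ) : ℝ :=
  limsup (fun n : ℕ => 1 / (n : ℝ) * Real.logb 2 (F n ⌈δ * n⌉₊)) atTop

namespace Good

variable {F : ℕ → ℕ → ℕ} (hF : Good F)

include hF

lemma add (n k d : ℕ) : F (n + k) d ≤ 2 ^ k * F n d := by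
  induction k with
  | zero => simp
  | succ k ih =>
    calc F (n + (k + 1)) d ≤ 2 * F (n + k) d := hF.succ (n + k) d
      _ ≤ 2 * (2 ^ k * F n d) := Nat.mul_le_mul_left 2 ih
      _ = 2 ^ (k + 1) * F n d := by rw [pow_succ]; ring

/-! ### the limsup -/

lemma rate_mem (n d : ℕ) : 0 ≤ 1 / (n : ℝ) * Real.logb 2 (F n d) ∧
    1 / (n : ℝ) * Real.logb 2 (F n d) ≤ 1 := by
  have h1 : (1 : ℝ) ≤ F n d := by exact_mod_cast hF.one_le n d
  have h2 : (F n d : ℝ) ≤ 2 ^ n := by exact_mod_cast hF.le_pow n d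
  have h3 : 0 ≤ Real.logb 2 (F n d) := Real.logb_nonneg (by norm_num) h1
  refine ⟨mul_nonneg (by positivity) h3, ?_⟩
  rcases Nat.eq_zero_or_pos n with h | h
  · subst h; simp
  · have hn : (0 : ℝ) < n := by exact_mod_cast h
    have h4 : Real.logb 2 (F n d) ≤ n := by
      have := Real.logb_le_logb_of_le (b := 2) (by norm_num) (by linarith) h2
      rwa [← Real.rpow_natCast, Real.logb_rpow (by norm_num) (by norm_num)] at this
    rw [one_div, inv_mul_le_iff₀ hn, mul_one]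
    exact h4

lemma bdd_above (δ : ℝ) : IsBoundedUnder (· ≤ ·) atTop
    (fun n : ℕ => 1 / (n : ℝ) * Real.logb 2 (F n ⌈δ * n⌉₊)) :=
  isBoundedUnder_of ⟨1, fun n => (hF.rate_mem n _).2⟩

lemma cobdd (δ : ℝ) : IsCoboundedUnder (· ≤ ·) atTop
    (fun n : ℕ => 1 / (n : ℝ) * Real.logb 2 (F n ⌈δ * n⌉₊)) :=
  IsCoboundedUnder.of_frequently_ge (a := 0) (Frequently.of_forall fun n => (hF.rate_mem n _).1)

lemma rate_nonneg (δ : ℝ) : 0 ≤ rate F δ :=
  le_limsup_of_frequently_le (Frequently.of_forall fun n => (hF.rate_mem n _).1) (hF.bdd_above δ)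

lemma rate_le_one (δ : ℝ) : rate F δ ≤ 1 :=
  limsup_le_of_le (hF.cobdd δ) (Eventually.of_forall fun n => (hF.rate_mem n _).2)

/-- the upper bound for large lengths -/
lemma le_eventually (δ : ℝ) {η : ℝ} (hη : 0 < η) :
    ∀ᶠ n : ℕ in atTop, (F n ⌈δ * n⌉₊ : ℝ) ≤ 2 ^ ((rate F δ + η) * n) := by
  have h1 : ∀ᶠ n : ℕ in atTop, 1 / (n : ℝ) * Real.logb 2 (F n ⌈δ * n⌉₊) < rate F δ + η :=
    eventually_lt_of_limsup_lt (show rate F δ < rate F δ + η by linarith) (hF.bdd_above δ)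
  filter_upwards [h1, eventually_ge_atTop 1] with n hn hn1
  have hnR : (0 : ℝ) < n := by exact_mod_cast hn1
  have hA : (0 : ℝ) < F n ⌈δ * n⌉₊ := by exact_mod_cast hF.one_le n _
  rw [one_div, inv_mul_lt_iff₀ hnR] at hn
  rw [← Real.logb_le_iff_le_rpow (by norm_num) hA]
  linarith

/-- criterion for upper bounds of the rate -/
lemma rate_le_of {δ b : ℝ} (h : ∀ η : ℝ, 0 < η → ∀ᶠ n : ℕ in atTop,
    (F n ⌈δ * n⌉₊ : ℝ) ≤ 2 ^ ((b + η) * n)) : rate F δ ≤ b := by
  refine le_of_forall_pos_le_add fun η hη => ?_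
  refine limsup_le_of_le (hF.cobdd δ) ?_
  filter_upwards [h η hη, eventually_ge_atTop 1] with n hn hn1
  have hnR : (0 : ℝ) < n := by exact_mod_cast hn1
  have hA : (0 : ℝ) < F n ⌈δ * n⌉₊ := by exact_mod_cast hF.one_le n _
  have h2 := Real.logb_le_logb_of_le (b := 2) (by norm_num) hA hn
  rw [Real.logb_rpow (by norm_num) (by norm_num)] at h2
  rw [one_div, inv_mul_le_iff₀ hnR]
  linarith

/-- the rate is at least the Gilbert-Varshamov bound -/
lemma rate_ge {δ : ℝ} (h0 : 0 < δ) (h1 : δ ≤ 1 / 2) : 1 - Real.binEntropy δ / Real.log 2 ≤ rate F δ := by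
  have hl2 : 0 < Real.log 2 := Real.log_pos (by norm_num)
  refine le_limsup_of_frequently_le (Eventually.frequently ?_) (hF.bdd_above δ)
  filter_upwards [eventually_ge_atTop 1] with n hn
  have hnR : (0 : ℝ) < n := by exact_mod_cast hn
  obtain ⟨d, hd⟩ : ∃ d, ⌈δ * (n : ℝ)⌉₊ = d + 1 :=
    Nat.exists_eq_succ_of_ne_zero (Nat.ceil_pos.2 (by positivity)).ne'
  have hdn : (d : ℝ) ≤ δ * n := by
    have h2 : ((⌈δ * n⌉₊ : ℕ) : ℝ) < δ * n + 1 := Nat.ceil_lt_add_one (by positivity)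
    rw [hd] at h2
    push_cast at h2
    linarith
  have hA : (0 : ℝ) < F n (d + 1) := by exact_mod_cast hF.one_le n _
  have h3 := hF.gilbert n d
  have h4 : (2 : ℝ) ^ n ≤ F n (d + 1) * Real.exp (n * Real.binEntropy δ) := by
    have h5 : (2 : ℝ) ^ n ≤ F n (d + 1) * vol n d := by exact_mod_cast h3
    exact h5.trans (mul_le_mul_of_nonneg_left (vol_le h0 h1 hdn) hA.le)
  have h6 := Real.log_le_log (by positivity) h4
  rw [Real.log_mul hA.ne' (Real.exp_pos _).ne', Real.log_exp, Real.log_pow] at h6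
  rw [hd, Real.logb, one_div, le_inv_mul_iff₀ hnR, le_div_iff₀ hl2]
  have e : (n : ℝ) * (1 - Real.binEntropy δ / Real.log 2) * Real.log 2 =
      n * Real.log 2 - n * Real.binEntropy δ := by
    field_simp
  rw [e]
  linarith

lemma rate_pos {δ : ℝ} (h0 : 0 < δ) (h1 : δ < 1 / 2) : 0 < rate F δ := by
  have hl2 : 0 < Real.log 2 := Real.log_pos (by norm_num)
  refine lt_of_lt_of_le ?_ (hF.rate_ge h0 h1.le)
  rw [sub_pos, div_lt_one hl2]
  exact Real.binEntropy_lt_log_two.2 (by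
    intro h
    rw [h] at h1
    norm_num at h1)

/-- the Lipschitz property from shortening -/
lemma rate_lipschitz {δ₁ δ : ℝ} (h0 : 0 < δ₁) (h1 : δ₁ ≤ δ) : rate F δ₁ ≤ rate F δ + (δ - δ₁) / δ := by
  have hδ : 0 < δ := by linarith
  obtain ⟨q, hq⟩ : ∃ q, q = δ₁ / δ := ⟨_, rfl⟩
  have hq0 : 0 < q := by rw [hq]; positivity
  have hq1 : q ≤ 1 := by rw [hq, div_le_one hδ]; exact h1
  have hqδ : q * δ = δ₁ := by rw [hq, div_mul_cancel₀ _ hδ.ne']
  have e : (δ - δ₁) / δ = 1 - q := by rw [hq]; field_simp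
  rw [e]
  refine hF.rate_le_of fun η hη => ?_
  -- the lengths
  obtain ⟨m, hm⟩ : ∃ m : ℕ → ℕ, m = fun n : ℕ => ⌊q * (n : ℝ)⌋₊ := ⟨_, rfl⟩
  have hmt : Tendsto m atTop atTop := by
    rw [hm]
    exact tendsto_nat_floor_atTop.comp
      (tendsto_natCast_atTop_atTop.const_mul_atTop hq0)
  have h2 := hmt.eventually (hF.le_eventually δ (half_pos hη))
  obtain ⟨N, hN⟩ := exists_nat_gt (2 / η)
  filter_upwards [h2, eventually_ge_atTop (max N 1)] with n hn hn1
  have hnN : N ≤ n := (le_max_left _ _).trans hn1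
  have hn1' : 1 ≤ n := (le_max_right _ _).trans hn1
  have hnR : (0 : ℝ) < n := by exact_mod_cast hn1'
  have hmn : m n ≤ n := by
    rw [hm]
    have h3 : ((⌊q * (n : ℝ)⌋₊ : ℕ) : ℝ) ≤ n :=
      (Nat.floor_le (by positivity)).trans (by nlinarith)
    exact_mod_cast h3
  have hmq : (m n : ℝ) ≤ q * n := by
    rw [hm]
    exact Nat.floor_le (by positivity)
  have hmq2 : q * n < m n + 1 := by
    rw [hm]
    exact Nat.lt_floor_add_one _
  have h3 : F n ⌈δ₁ * n⌉₊ ≤ 2 ^ (n - m n) * F (m n) ⌈δ * (m n : ℝ)⌉₊ := by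
    have h4 := hF.add (m n) (n - m n) ⌈δ₁ * n⌉₊
    rw [Nat.add_sub_cancel' hmn] at h4
    refine h4.trans (Nat.mul_le_mul_left _ (hF.anti _ ?_))
    refine Nat.ceil_le_ceil ?_
    calc δ * (m n : ℝ) ≤ δ * (q * n) := mul_le_mul_of_nonneg_left hmq hδ.le
      _ = δ₁ * n := by rw [← hqδ]; ring
  have h5 : (F n ⌈δ₁ * n⌉₊ : ℝ) ≤ 2 ^ (n - m n) * F (m n) ⌈δ * (m n : ℝ)⌉₊ := by
    exact_mod_cast h3
  refine h5.trans ((mul_le_mul_of_nonneg_left hn (by positivity)).trans ?_)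
  rw [← Real.rpow_natCast, ← Real.rpow_add (by norm_num), Nat.cast_sub hmn]
  refine Real.rpow_le_rpow_of_exponent_le (by norm_num) ?_
  have hR0 := hF.rate_nonneg δ
  have hR1 := hF.rate_le_one δ
  have hN2 : 2 / η < n := hN.trans_le (by exact_mod_cast hnN)
  rw [div_lt_iff₀ hη] at hN2
  have hm0 : (0 : ℝ) ≤ m n := Nat.cast_nonneg _
  have hmnR : (m n : ℝ) ≤ n := by exact_mod_cast hmn
  have k1 : (n : ℝ) - m n ≤ (1 - q) * n + 1 := by linarith
  have k2 : rate F δ * (m n : ℝ) ≤ rate F δ * n := mul_le_mul_of_nonneg_left hmnR hR0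
  have k3 : η / 2 * (m n : ℝ) ≤ η / 2 * n := mul_le_mul_of_nonneg_left hmnR (by positivity)
  have k4 : 1 ≤ η / 2 * (n : ℝ) := by linarith
  calc (n : ℝ) - m n + (rate F δ + η / 2) * (m n : ℝ)
      = ((n : ℝ) - m n) + rate F δ * (m n : ℝ) + η / 2 * (m n : ℝ) := by ring
    _ ≤ ((1 - q) * n + 1) + rate F δ * n + η / 2 * n := by linarith
    _ ≤ (rate F δ + (1 - q) + η) * n := by
      have e2 : (rate F δ + (1 - q) + η) * (n : ℝ) =
        ((1 - q) * n + η / 2 * n) + rate F δ * n + η / 2 * n := by ring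
      rw [e2]; linarith

end Good

end Pool.Agent.K9h1.MD
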