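import Mathlib
import Pool.Agent.K9h1.MD.Abs

/-!
K9h1/MD (helper1, MP_0430e4_lc): near-optimal codes have many near-minimum-distance neighbours.
-/

set_option autoImplicit false

open Finset Filter Topology

namespace Pool.Agent.K9h1.MD

open Pool.Agent.K9h1.HB

lemma exponent_bound {δ ε R : ℝ} (h0 : 0 < δ) (hR0 : 0 < R) (hR1 : R ≤ 1)
    (hε0 : 0 < ε) (hε : ε ≤ δ * R / 8) :
    (Real.exp (R / 8) - 1) * (δ + ε) - R / 8 * (δ * (1 + R / 2)) ≤ -(δ * R ^ 2 / 40) := by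
  have h1 : Real.exp (R / 8) - 1 ≤ R / 8 + (R / 8) ^ 2 := by
    have h2 := Real.abs_exp_sub_one_sub_id_le (x := R / 8) (by
      rw [abs_of_nonneg (by positivity)]; linarith)
    have h3 := (abs_le.1 h2).2
    linarith
  have h4 : δ + ε ≤ δ * (1 + R / 8) := by linarith
  have h5 : (Real.exp (R / 8) - 1) * (δ + ε) ≤ (R / 8 + (R / 8) ^ 2) * (δ * (1 + R / 8)) :=
    mul_le_mul h1 h4 (by positivity) (by positivity)
  have h6 : (R / 8 + (R / 8) ^ 2) * (δ * (1 + R / 8)) - R / 8 * (δ * (1 + R / 2)) =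
      -(δ * R ^ 2) * (1 / 32 - R / 512) := by ring
  have h7 : -(δ * R ^ 2) * (1 / 32 - R / 512) ≤ -(δ * R ^ 2 / 40) := by
    have h8 : 0 < δ * R ^ 2 := by positivity
    nlinarith
  linarith

lemma tendsto_lin_mul_exp {a : ℝ} (ha : 0 < a) :
    Tendsto (fun n : ℕ => ((n : ℝ) + 1) * Real.exp (-(a * n))) atTop (𝓝 0) := by
  have h1 : Tendsto (fun x : ℝ => x ^ 1 * Real.exp (-a * x)) atTop (𝓝 0) := by
    have := Real.tendsto_pow_mul_exp_neg_atTop_nhds_zero 1
    have h2 := this.comp (tendsto_id.const_mul_atTop ha)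
    have h3 := h2.const_mul (1 / a)
    rw [mul_zero] at h3
    refine h3.congr fun x => ?_
    simp only [Function.comp, id, pow_one]
    field_simp
  have h4 : Tendsto (fun x : ℝ => Real.exp (-a * x)) atTop (𝓝 0) := by
    refine Real.tendsto_exp_atBot.comp ?_
    exact (tendsto_id.const_mul_atTop_of_neg (by linarith : -a < 0))
  have h5 := (h1.add h4).comp tendsto_natCast_atTop_atTop
  rw [add_zero] at h5
  refine h5.congr fun n => ?_
  simp only [Function.comp, pow_one]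
  rw [neg_mul]
  ring

/-- the rate computation behind random puncturing -/
theorem main_rate {F : ℕ → ℕ → ℕ} (hF : Good F) {δ : ℝ} (h0 : 0 < δ) (h1 : δ < 1 / 2) {ε : ℝ}
    (hε0 : 0 < ε) (hε : ε ≤ δ * rate F δ / 8) :
    ∀ᶠ n : ℕ in atTop, ∃ (t : ℕ) (r τ : ℝ), t ≤ n ∧ 0 ≤ τ ∧ 0 < δ * n - r ∧
      δ * n - r ≤ (δ + ε) * n - t ∧
      (∀ D : Finset (Fin n), (D.card : ℝ) ≤ (δ + ε) * n →
        (((powersetCard t (univ : Finset (Fin n))).filter fun T => r ≤ ((T ∩ D).card : ℝ)).card : ℝ)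
          ≤ τ * n.choose t) ∧
      2 ^ (δ * rate F δ ^ 2 / 80 * ε * n) * τ ≤ 1 / 2 ∧
      (2 * F (n - t) ⌈δ * n - r⌉₊ : ℝ) ≤ 2 ^ ((1 - ε / 4) * rate F δ * n) := by
  classical
  have hR0 : 0 < rate F δ := hF.rate_pos h0 h1
  have hR1 : rate F δ ≤ 1 := hF.rate_le_one δ
  obtain ⟨Q, hQ⟩ : ∃ Q, Q = rate F δ := ⟨_, rfl⟩
  rw [← hQ] at hR0 hR1 hε ⊢
  have hε2 : ε ≤ 1 / 16 := by nlinarith
  have hε1 : ε ≤ δ / 8 := by nlinarith
  -- the puncturing size
  obtain ⟨t, ht⟩ : ∃ t : ℕ → ℕ, t = fun n : ℕ => ⌊ε * (n : ℝ)⌋₊ := ⟨_, rfl⟩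
  have htn : ∀ n, (t n : ℝ) ≤ ε * n := fun n => by
    rw [ht]; exact Nat.floor_le (by positivity)
  have htn2 : ∀ n, ε * n < (t n : ℝ) + 1 := fun n => by
    rw [ht]; exact Nat.lt_floor_add_one _
  have htle : ∀ n, t n ≤ n := fun n => by
    have h2 : (t n : ℝ) ≤ n := (htn n).trans (by nlinarith [Nat.cast_nonneg (α := ℝ) n])
    exact_mod_cast h2
  have hmt : Tendsto (fun n => n - t n) atTop atTop := by
    rw [tendsto_atTop_atTop]
    intro b
    refine ⟨2 * b, fun n hn => ?_⟩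
    have h2 : 2 * (t n) ≤ n := by
      have h3 : (2 : ℝ) * t n ≤ n := by
        have := htn n
        nlinarith [Nat.cast_nonneg (α := ℝ) n]
      exact_mod_cast h3
    omega
  -- the rate at the punctured distance
  obtain ⟨δ₁, hδ₁⟩ : ∃ δ₁, δ₁ = δ - 3 / 5 * ε * δ * Q := ⟨_, rfl⟩
  have hδ₁0 : 0 < δ₁ := by
    rw [hδ₁]
    have : 3 / 5 * ε * δ * Q ≤ 3 / 5 * (1 / 16) * δ * 1 := by gcongr
    linarith
  have hδ₁1 : δ₁ ≤ δ := by
    rw [hδ₁]
    have : 0 ≤ 3 / 5 * ε * δ * Q := by positivity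
    linarith
  have hL : rate F δ₁ ≤ Q + 3 / 5 * ε * Q := by
    have h2 := hF.rate_lipschitz hδ₁0 hδ₁1
    rw [← hQ] at h2
    refine h2.trans (le_of_eq ?_)
    rw [hδ₁]
    field_simp
    ring
  have hη : 0 < ε * Q / 20 := by positivity
  have e1 := hmt.eventually (hF.le_eventually δ₁ hη)
  have ha : 0 < δ * Q ^ 2 * ε / 80 := by positivity
  have e2 : ∀ᶠ n : ℕ in atTop,
      ((n : ℝ) + 1) * Real.exp (-(δ * Q ^ 2 * ε / 80 * n)) < 1 / 2 * Real.exp (-1) :=
    (tendsto_lin_mul_exp ha).eventually (eventually_lt_nhds (by positivity))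
  obtain ⟨N, hN⟩ := exists_nat_gt (30 / (ε * Q))
  filter_upwards [e1, e2, eventually_ge_atTop (max N 1)] with n hn1 hn2 hn3
  have hnN : N ≤ n := (le_max_left _ _).trans hn3
  have hn : 1 ≤ n := (le_max_right _ _).trans hn3
  have hnR : (0 : ℝ) < n := by exact_mod_cast hn
  have hNn : 30 < ε * Q * n := by
    have h2 : 30 / (ε * Q) < n := hN.trans_le (by exact_mod_cast hnN)
    rw [div_lt_iff₀ (by positivity)] at h2
    linarith
  have ht0 : (0 : ℝ) ≤ t n := Nat.cast_nonneg _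
  refine ⟨t n, δ * (1 + Q / 2) * t n, ((n : ℝ) + 1) * Real.exp (-(δ * Q ^ 2 / 40 * t n)), htle n,
    by positivity, ?_, ?_, ?_, ?_, ?_⟩
  · -- positivity of the punctured distance
    have h2 : δ * (1 + Q / 2) * t n ≤ δ * (3 / 2) * (1 / 16 * n) := by
      have h3 : (t n : ℝ) ≤ 1 / 16 * n := (htn n).trans (by gcongr)
      have h4 : δ * (1 + Q / 2) ≤ δ * (3 / 2) := by gcongr; linarith
      exact mul_le_mul h4 h3 ht0 (by positivity)
    have h3 : 0 < δ * n := by positivity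
    linarith
  · have := htn n
    have h2 : 0 ≤ δ * (1 + Q / 2) * t n := by positivity
    linarith
  · -- the tail
    intro D hD
    refine (tail hn (htle n) D (θ := Q / 8) (r := δ * (1 + Q / 2) * t n) (by positivity)).trans ?_
    refine mul_le_mul_of_nonneg_right (mul_le_mul_of_nonneg_left (Real.exp_le_exp.2 ?_)
      (by positivity)) (by positivity)
    have h2 : 0 ≤ Real.exp (Q / 8) - 1 := by
      have := Real.add_one_le_exp (Q / 8)
      linarith
    have h3 : (t n : ℝ) / n * (Real.exp (Q / 8) - 1) * D.card ≤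
        t n * ((Real.exp (Q / 8) - 1) * (δ + ε)) := by
      calc (t n : ℝ) / n * (Real.exp (Q / 8) - 1) * D.card
          ≤ (t n : ℝ) / n * (Real.exp (Q / 8) - 1) * ((δ + ε) * n) :=
            mul_le_mul_of_nonneg_left hD (by positivity)
        _ = _ := by field_simp
    have h4 := exponent_bound h0 hR0 hR1 hε0 hε
    have h5 := mul_le_mul_of_nonneg_left h4 ht0
    calc (t n : ℝ) / n * (Real.exp (Q / 8) - 1) * D.card - Q / 8 * (δ * (1 + Q / 2) * t n)
        ≤ t n * ((Real.exp (Q / 8) - 1) * (δ + ε)) - Q / 8 * (δ * (1 + Q / 2) * t n) := by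
          linarith
      _ = t n * ((Real.exp (Q / 8) - 1) * (δ + ε) - Q / 8 * (δ * (1 + Q / 2))) := by ring
      _ ≤ t n * (-(δ * Q ^ 2 / 40)) := h5
      _ = -(δ * Q ^ 2 / 40 * t n) := by ring
  · -- the union bound
    have hl : Real.log 2 ≤ 1 := by
      have := Real.log_two_lt_d9
      linarith
    have h2 : (2 : ℝ) ^ (δ * Q ^ 2 / 80 * ε * n) ≤ Real.exp (δ * Q ^ 2 * ε / 80 * n) := by
      rw [Real.rpow_def_of_pos (by norm_num)]
      refine Real.exp_le_exp.2 ?_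
      have h3 : 0 ≤ δ * Q ^ 2 * ε / 80 * n := by positivity
      calc Real.log 2 * (δ * Q ^ 2 / 80 * ε * n) = Real.log 2 * (δ * Q ^ 2 * ε / 80 * n) := by ring
        _ ≤ 1 * (δ * Q ^ 2 * ε / 80 * n) := mul_le_mul_of_nonneg_right hl h3
        _ = _ := one_mul _
    have hQ2 : Q ^ 2 ≤ 1 := by nlinarith
    have h3 : Real.exp (-(δ * Q ^ 2 / 40 * t n)) ≤
        Real.exp 1 * Real.exp (-(δ * Q ^ 2 * ε / 40 * n)) := by
      rw [← Real.exp_add]
      refine Real.exp_le_exp.2 ?_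
      have h4 : δ * Q ^ 2 / 40 * (ε * n) ≤ δ * Q ^ 2 / 40 * (t n + 1) :=
        mul_le_mul_of_nonneg_left (htn2 n).le (by positivity)
      have h5 : δ * Q ^ 2 / 40 ≤ 1 := by nlinarith
      linarith
    calc (2 : ℝ) ^ (δ * Q ^ 2 / 80 * ε * n) *
          (((n : ℝ) + 1) * Real.exp (-(δ * Q ^ 2 / 40 * t n)))
        ≤ Real.exp (δ * Q ^ 2 * ε / 80 * n) *
          (((n : ℝ) + 1) * (Real.exp 1 * Real.exp (-(δ * Q ^ 2 * ε / 40 * n)))) := by gcongr
      _ = ((n : ℝ) + 1) * Real.exp (-(δ * Q ^ 2 * ε / 80 * n)) * Real.exp 1 := by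
          have h6 : Real.exp (-(δ * Q ^ 2 * ε / 80 * n)) =
              Real.exp (δ * Q ^ 2 * ε / 80 * n) * Real.exp (-(δ * Q ^ 2 * ε / 40 * n)) := by
            rw [← Real.exp_add]
            congr 1
            ring
          rw [h6]
          ring
      _ ≤ 1 / 2 * Real.exp (-1) * Real.exp 1 :=
          mul_le_mul_of_nonneg_right hn2.le (Real.exp_pos _).le
      _ = 1 / 2 := by
          rw [mul_assoc, ← Real.exp_add]
          norm_num
  · -- the rate
    have h2 : δ₁ * ((n - t n : ℕ) : ℝ) ≤ δ * n - δ * (1 + Q / 2) * t n := by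
      rw [Nat.cast_sub (htle n), hδ₁]
      have h3 : δ * Q / 2 * t n ≤ 3 / 5 * ε * δ * Q * (n - t n) := by
        have h4 : (t n : ℝ) / 2 ≤ 3 / 5 * ε * (n - t n) := by
          have h5 : (15 / 16 : ℝ) * n ≤ n - t n := by
            have := htn n
            nlinarith
          have h6 : 3 / 5 * ε * ((15 / 16 : ℝ) * n) ≤ 3 / 5 * ε * (n - t n) :=
            mul_le_mul_of_nonneg_left h5 (by positivity)
          have := htn n
          linarith
        have h7 := mul_le_mul_of_nonneg_left h4 (show 0 ≤ δ * Q by positivity)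
        linarith
      linarith
    have h3 : F (n - t n) ⌈δ * n - δ * (1 + Q / 2) * t n⌉₊ ≤
        F (n - t n) ⌈δ₁ * ((n - t n : ℕ) : ℝ)⌉₊ := hF.anti _ (Nat.ceil_le_ceil h2)
    have h4 : (2 * F (n - t n) ⌈δ * n - δ * (1 + Q / 2) * t n⌉₊ : ℝ) ≤
        2 * F (n - t n) ⌈δ₁ * ((n - t n : ℕ) : ℝ)⌉₊ := by
      exact_mod_cast Nat.mul_le_mul_left 2 h3
    refine h4.trans ((mul_le_mul_of_nonneg_left hn1 (by norm_num)).trans ?_)
    rw [show (2 : ℝ) * 2 ^ ((rate F δ₁ + ε * Q / 20) * ((n - t n : ℕ) : ℝ)) =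
      2 ^ (1 + (rate F δ₁ + ε * Q / 20) * ((n - t n : ℕ) : ℝ)) by
        rw [Real.rpow_add (by norm_num), Real.rpow_one]]
    refine Real.rpow_le_rpow_of_exponent_le (by norm_num) ?_
    rw [Nat.cast_sub (htle n)]
    have h5 : (n : ℝ) - t n ≤ (1 - ε) * n + 1 := by
      have := htn2 n
      linarith
    have h6 : rate F δ₁ + ε * Q / 20 ≤ (1 + 13 / 20 * ε) * Q := by linarith
    have h7 : (0 : ℝ) ≤ n - t n := by
      have : (t n : ℝ) ≤ n := by exact_mod_cast htle n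
      linarith
    have h8 : (rate F δ₁ + ε * Q / 20) * ((n : ℝ) - t n) ≤ (1 + 13 / 20 * ε) * Q * ((1 - ε) * n + 1) :=
      mul_le_mul h6 h5 h7 (by positivity)
    have h9 : (1 + 13 / 20 * ε) * Q * ((1 - ε) * n + 1) ≤ (1 - 7 / 20 * ε) * Q * n + 2 := by
      have h10 : (1 + 13 / 20 * ε) * Q * 1 ≤ 2 := by nlinarith
      have h11 : (1 + 13 / 20 * ε) * (1 - ε) ≤ 1 - 7 / 20 * ε := by nlinarith
      have h12 := mul_le_mul_of_nonneg_right h11 (show 0 ≤ Q * n by positivity)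
      nlinarith
    have h13 : (1 - 7 / 20 * ε) * Q * n + 2 + 1 ≤ (1 - ε / 4) * Q * n := by
      have : (1 - ε / 4) * Q * n - (1 - 7 / 20 * ε) * Q * n = 1 / 10 * (ε * Q * n) := by ring
      linarith
    linarith

/-- the size function of all codes -/
lemma good_A : Good A where
  one_le := one_le_A
  le_pow := A_le_pow
  anti := fun n _ _ h => A_anti n h
  succ := A_succ
  gilbert := gilbert

theorem neighbours {δ : ℝ} (h0 : 0 < δ) (h1 : δ < 1 / 2) {ε : ℝ} (hε0 : 0 < ε)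
    (hε : ε ≤ δ * rate A δ / 8) :
    ∀ᶠ n : ℕ in atTop, ∀ C : Finset (Fin n → Bool),
      (∀ x ∈ C, ∀ y ∈ C, x ≠ y → δ * n ≤ hammingDist x y) →
      ((C.filter fun x => ((C.filter fun y => y ≠ x ∧
        (hammingDist x y : ℝ) ≤ (δ + ε) * n).card : ℝ) <
          2 ^ (δ * rate A δ ^ 2 / 80 * ε * n)).card : ℝ) ≤
        2 ^ ((1 - ε / 4) * rate A δ * n) := by
  classical
  filter_upwards [main_rate good_A h0 h1 hε0 hε] with n hn C hC
  obtain ⟨t, r, τ, htn, hτ0, h2, h3, h4, h5, h6⟩ := hn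
  set B := C.filter fun x => ((C.filter fun y => y ≠ x ∧
        (hammingDist x y : ℝ) ≤ (δ + ε) * n).card : ℝ) < 2 ^ (δ * rate A δ ^ 2 / 80 * ε * n) with hB
  have hkey := puncture htn B (d := δ * n) (u := (δ + ε) * n) (r := r)
    (M := 2 ^ (δ * rate A δ ^ 2 / 80 * ε * n)) (τ := τ) h2 h3 ?_ ?_ h4 h5 hτ0
  · refine le_trans ?_ h6
    exact_mod_cast hkey
  · intro x hx y hy hxy
    rw [hB, Finset.mem_filter] at hx hy
    exact hC x hx.1 y hy.1 hxy
  · intro x hx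
    have hx' := hx
    rw [hB, Finset.mem_filter] at hx'
    refine le_trans ?_ hx'.2.le
    have : (B.filter fun y => y ≠ x ∧ (hammingDist x y : ℝ) ≤ (δ + ε) * n).card ≤
        (C.filter fun y => y ≠ x ∧ (hammingDist x y : ℝ) ≤ (δ + ε) * n).card :=
      Finset.card_le_card (Finset.filter_subset_filter _ (Finset.filter_subset _ _))
    exact_mod_cast this

end Pool.Agent.K9h1.MD
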