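import Mathlib
import Pool.Agent.K9h1.MD.Final

/-!
K9h1/MD (helper1, MP_0430e4_lc): linear codes near the best linear rate have exponentially many light
codewords.
-/

set_option autoImplicit false

open Finset Filter Topology

namespace Pool.Agent.K9h1.MD

open Pool.Agent.K9h1.HB

/-- the largest dimension of a linear binary code of length `n` and minimum weight at least `d` -/
noncomputable def K (n d : ℕ) : ℕ :=
  sSup {k | ∃ C : Submodule (ZMod 2) (Fin n → ZMod 2),
    (∀ x ∈ C, x ≠ 0 → d ≤ hammingNorm x) ∧ Module.finrank (ZMod 2) C = k}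

lemma K_bdd (n d : ℕ) : BddAbove {k | ∃ C : Submodule (ZMod 2) (Fin n → ZMod 2),
    (∀ x ∈ C, x ≠ 0 → d ≤ hammingNorm x) ∧ Module.finrank (ZMod 2) C = k} := by
  refine ⟨n, ?_⟩
  rintro k ⟨C, -, rfl⟩
  refine (Submodule.finrank_le C).trans ?_
  simp

lemma finrank_le_K {n d : ℕ} (C : Submodule (ZMod 2) (Fin n → ZMod 2))
    (hC : ∀ x ∈ C, x ≠ 0 → d ≤ hammingNorm x) : Module.finrank (ZMod 2) C ≤ K n d :=
  le_csSup (K_bdd n d) ⟨C, hC, rfl⟩

lemma exists_K (n d : ℕ) : ∃ C : Submodule (ZMod 2) (Fin n → ZMod 2),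
    (∀ x ∈ C, x ≠ 0 → d ≤ hammingNorm x) ∧ Module.finrank (ZMod 2) C = K n d :=
  Nat.sSup_mem (s := {k | ∃ C : Submodule (ZMod 2) (Fin n → ZMod 2),
    (∀ x ∈ C, x ≠ 0 → d ≤ hammingNorm x) ∧ Module.finrank (ZMod 2) C = k})
    ⟨0, ⊥, by simp, by simp⟩ (K_bdd n d)

lemma K_le (n d : ℕ) : K n d ≤ n := by
  obtain ⟨C, -, h⟩ := exists_K n d
  rw [← h]
  refine (Submodule.finrank_le C).trans ?_
  simp

lemma K_anti (n : ℕ) {d d' : ℕ} (h : d ≤ d') : K n d' ≤ K n d := by
  obtain ⟨C, hC, hc⟩ := exists_K n d'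
  rw [← hc]
  exact finrank_le_K C fun x hx h0 => h.trans (hC x hx h0)

/-- shortening -/
lemma K_succ (n d : ℕ) : K (n + 1) d ≤ K n d + 1 := by
  classical
  obtain ⟨C, hC, hc⟩ := exists_K (n + 1) d
  rw [← hc]
  let f : C →ₗ[ZMod 2] ZMod 2 := (LinearMap.proj (0 : Fin (n + 1))).comp C.subtype
  let g : LinearMap.ker f →ₗ[ZMod 2] (Fin n → ZMod 2) :=
    ((LinearMap.funLeft (ZMod 2) (ZMod 2) Fin.succ).comp C.subtype).comp (LinearMap.ker f).subtype
  have hf : ∀ x : LinearMap.ker f, (x : Fin (n + 1) → ZMod 2) 0 = 0 := fun x => x.2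
  have hg : ∀ (x : LinearMap.ker f) (i : Fin n), g x i = (x : Fin (n + 1) → ZMod 2) i.succ :=
    fun x i => rfl
  have hginj : Function.Injective g := by
    rw [injective_iff_map_eq_zero]
    intro x hx
    ext i
    refine Fin.cases ?_ (fun j => ?_) i
    · exact hf x
    · rw [← hg, hx]
      rfl
  have h1 := LinearMap.finrank_range_add_finrank_ker f
  have h2 : Module.finrank (ZMod 2) (LinearMap.range f) ≤ 1 := by
    refine (Submodule.finrank_le _).trans ?_
    simp
  have h3 : Module.finrank (ZMod 2) (LinearMap.ker f) ≤ K n d := by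
    rw [← LinearMap.finrank_range_of_inj hginj]
    refine finrank_le_K _ ?_
    rintro y ⟨x, rfl⟩ hy
    have hx : (x : Fin (n + 1) → ZMod 2) ≠ 0 := by
      intro h
      apply hy
      ext i
      rw [hg, h]
      rfl
    refine (hC _ (x : C).2 hx).trans (le_of_eq ?_)
    unfold hammingNorm
    rw [Finset.card_filter, Finset.card_filter, Fin.sum_univ_succ, if_neg (not_not.2 (hf x)),
      zero_add]
    rfl
  omega

/-- a covering bound -/
lemma cover_le {n d : ℕ} (C : Finset (Fin n → Bool))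
    (hcov : ∀ z : Fin n → Bool, ∃ c ∈ C, hammingDist z c ≤ d) : 2 ^ n ≤ C.card * vol n d := by
  classical
  have h2 : (univ : Finset (Fin n → Bool)) ⊆
      C.biUnion fun c => univ.filter fun z => hammingDist c z ≤ d := by
    intro z _
    obtain ⟨c, hcC, hcz⟩ := hcov z
    rw [Finset.mem_biUnion]
    exact ⟨c, hcC, by rw [Finset.mem_filter, hammingDist_comm]; exact ⟨Finset.mem_univ _, hcz⟩⟩
  have h3 := Finset.card_le_card h2
  rw [Finset.card_univ, Fintype.card_fun, Fintype.card_bool, Fintype.card_fin] at h3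
  refine h3.trans (Finset.card_biUnion_le.trans ?_)
  rw [Finset.sum_congr rfl fun c _ => card_ball n d c, Finset.sum_const, smul_eq_mul]

lemma zmod_two : ∀ a : ZMod 2, a = 0 ∨ a = 1 := by decide

/-- the Varshamov bound -/
lemma varshamov (n d : ℕ) : 2 ^ n ≤ 2 ^ K n (d + 1) * vol n d := by
  classical
  obtain ⟨C, hC, hc⟩ := exists_K n (d + 1)
  -- maximality
  have hcov : ∀ z : Fin n → ZMod 2, ∃ c ∈ C, hammingDist z c ≤ d := by
    intro z
    by_contra hcon
    push Not at hcon
    have hz : z ∉ C := fun h => by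
      have := hcon z h
      rw [hammingDist_self] at this
      omega
    have h1 : Module.finrank (ZMod 2) (C ⊔ Submodule.span (ZMod 2) {z} : Submodule _ _) ≤
        K n (d + 1) := by
      refine finrank_le_K _ ?_
      intro x hx hx0
      obtain ⟨c, hcC, w, hw, rfl⟩ := Submodule.mem_sup.1 hx
      obtain ⟨a, rfl⟩ := Submodule.mem_span_singleton.1 hw
      have ha : a = 0 ∨ a = 1 := zmod_two a
      rcases ha with rfl | rfl
      · rw [zero_smul, add_zero] at hx0 ⊢
        exact hC c hcC hx0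
      · rw [one_smul]
        have h2 := hcon (-c) (C.neg_mem hcC)
        rw [hammingDist_eq_hammingNorm] at h2
        have h3 : -z + -c = c + z := by
          ext i
          have h4 : ∀ a b : ZMod 2, -a + -b = b + a := by decide
          exact h4 (z i) (c i)
        rw [← h3]
        exact h2
    have h2 : Module.finrank (ZMod 2) C <
        Module.finrank (ZMod 2) (C ⊔ Submodule.span (ZMod 2) {z} : Submodule _ _) := by
      refine Submodule.finrank_lt_finrank_of_lt ?_
      refine lt_of_le_of_ne le_sup_left ?_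
      intro h
      apply hz
      rw [h]
      exact Submodule.mem_sup_right (Submodule.mem_span_singleton_self z)
    omega
  -- transfer to Boolean words
  let e : ZMod 2 ≃ Bool := Fintype.equivOfCardEq (by simp [ZMod.card])
  let C' : Finset (Fin n → Bool) := (univ : Finset ↥C).image fun (c : ↥C) => fun i => e (c.1 i)
  have hC' : C'.card ≤ 2 ^ K n (d + 1) := by
    refine Finset.card_image_le.trans ?_
    rw [Finset.card_univ, Module.card_eq_pow_finrank (K := ZMod 2), ZMod.card, hc]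
  refine (cover_le C' ?_).trans (Nat.mul_le_mul_right _ hC')
  intro z
  obtain ⟨c, hcC, hcz⟩ := hcov fun i => e.symm (z i)
  refine ⟨fun i => e (c i), Finset.mem_image.2 ⟨⟨c, hcC⟩, Finset.mem_univ _, rfl⟩, ?_⟩
  have h1 := hammingDist_comp (fun _ : Fin n => (e : ZMod 2 → Bool)) (fun _ => e.injective)
    (x := fun i => e.symm (z i)) (y := c)
  simp only [Equiv.apply_symm_apply] at h1
  rw [h1]
  exact hcz

/-- the size function of linear codes -/
lemma good_K : Good fun n d => 2 ^ K n d where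
  one_le := fun _ _ => Nat.one_le_two_pow
  le_pow := fun n d => Nat.pow_le_pow_right (by norm_num) (K_le n d)
  anti := fun n _ _ h => Nat.pow_le_pow_right (by norm_num) (K_anti n h)
  succ := fun n d => by
    refine (Nat.pow_le_pow_right (by norm_num) (K_succ n d)).trans (le_of_eq ?_)
    rw [pow_succ]; ring
  gilbert := varshamov

/-- random puncturing of linear codes -/
lemma puncture_lin {n t : ℕ} (ht : t ≤ n) (C : Submodule (ZMod 2) (Fin n → ZMod 2))
    {d u r M τ : ℝ} (hdr : 0 < d - r) (hur : d - r ≤ u - t)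
    (hmin : ∀ x ∈ C, x ≠ 0 → d ≤ hammingNorm x)
    (hM : (Nat.card {x : Fin n → ZMod 2 // x ∈ C ∧ x ≠ 0 ∧ (hammingNorm x : ℝ) ≤ u} : ℝ) ≤ M)
    (hτ : ∀ D : Finset (Fin n), (D.card : ℝ) ≤ u →
      (((powersetCard t (univ : Finset (Fin n))).filter fun T => r ≤ ((T ∩ D).card : ℝ)).card : ℝ)
        ≤ τ * n.choose t)
    (hMτ : M * τ ≤ 1 / 2) (hτ0 : 0 ≤ τ) :
    Module.finrank (ZMod 2) C ≤ K (n - t) ⌈d - r⌉₊ := by
  classical
  set P : Finset (Finset (Fin n)) := powersetCard t univ with hP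
  have hPcard : P.card = n.choose t := by
    rw [hP, Finset.card_powersetCard, Finset.card_univ, Fintype.card_fin]
  have hPpos : 0 < n.choose t := Nat.choose_pos ht
  let Df : (Fin n → ZMod 2) → Finset (Fin n) := fun x => univ.filter fun i => x i ≠ 0
  have hDf : ∀ x, (Df x).card = hammingNorm x := fun x => rfl
  let L : Finset (Fin n → ZMod 2) := univ.filter fun x => x ∈ C ∧ x ≠ 0 ∧ (hammingNorm x : ℝ) ≤ u
  have hL : (L.card : ℝ) ≤ M := by
    refine le_trans (le_of_eq ?_) hM
    rw [Nat.card_eq_fintype_card, Fintype.card_subtype]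
  -- a good puncturing set
  obtain ⟨T, hTP, hT⟩ : ∃ T ∈ P, ∀ x ∈ L, ((T ∩ Df x).card : ℝ) < r := by
    by_contra hcon
    push Not at hcon
    have h1 : P ⊆ L.biUnion fun x => P.filter fun T => r ≤ ((T ∩ Df x).card : ℝ) := by
      intro T hT
      obtain ⟨x, hx, hxr⟩ := hcon T hT
      exact Finset.mem_biUnion.2 ⟨x, hx, Finset.mem_filter.2 ⟨hT, hxr⟩⟩
    have h2 : (P.card : ℝ) ≤ ∑ x ∈ L, ((P.filter fun T => r ≤ ((T ∩ Df x).card : ℝ)).card : ℝ) := by
      exact_mod_cast (Finset.card_le_card h1).trans Finset.card_biUnion_le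
    have h3 : ∑ x ∈ L, ((P.filter fun T => r ≤ ((T ∩ Df x).card : ℝ)).card : ℝ) ≤
        M * (τ * n.choose t) := by
      refine (Finset.sum_le_sum (g := fun _ => τ * n.choose t) fun x hx => ?_).trans ?_
      · refine hτ _ ?_
        rw [hDf]
        exact (Finset.mem_filter.1 hx).2.2.2
      · rw [Finset.sum_const, nsmul_eq_mul]
        exact mul_le_mul_of_nonneg_right hL (by positivity)
    rw [hPcard] at h2
    have h4 : (0 : ℝ) < n.choose t := by exact_mod_cast hPpos
    have h5 : M * (τ * n.choose t) ≤ 1 / 2 * n.choose t := by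
      calc M * (τ * n.choose t) = (M * τ) * n.choose t := by ring
        _ ≤ _ := mul_le_mul_of_nonneg_right hMτ h4.le
    linarith
  rw [hP, Finset.mem_powersetCard] at hTP
  -- the restriction
  have hS : (Tᶜ).card = n - t := by rw [Finset.card_compl, Fintype.card_fin, hTP.2]
  let e := (Tᶜ).orderEmbOfFin hS
  let g : C →ₗ[ZMod 2] (Fin (n - t) → ZMod 2) :=
    (LinearMap.funLeft (ZMod 2) (ZMod 2) e).comp C.subtype
  have hnorm : ∀ x : C, hammingNorm (g x) = (Df (x : Fin n → ZMod 2) \ T).card := by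
    intro x
    unfold hammingNorm
    rw [← Finset.card_map e.toEmbedding]
    congr 1
    ext i
    rw [Finset.mem_map, Finset.mem_sdiff, Finset.mem_filter]
    constructor
    · rintro ⟨j, hj, rfl⟩
      rw [Finset.mem_filter] at hj
      exact ⟨⟨Finset.mem_univ _, hj.2⟩, Finset.mem_compl.1 (Finset.orderEmbOfFin_mem _ hS j)⟩
    · rintro ⟨⟨-, h1⟩, h2⟩
      have h3 : i ∈ Set.range e := by
        rw [Finset.range_orderEmbOfFin]
        exact Finset.mem_coe.2 (Finset.mem_compl.2 h2)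
      obtain ⟨j, rfl⟩ := h3
      exact ⟨j, Finset.mem_filter.2 ⟨Finset.mem_univ _, h1⟩, rfl⟩
  have hbig : ∀ x : C, (x : Fin n → ZMod 2) ≠ 0 → d - r ≤ hammingNorm (g x) := by
    intro x hx
    rw [hnorm]
    have h13 : (Df x \ T).card + (T ∩ Df x).card = hammingNorm (x : Fin n → ZMod 2) := by
      rw [Finset.inter_comm, Finset.card_sdiff_add_card_inter, hDf]
    have h14 : ((Df x \ T).card : ℝ) = hammingNorm (x : Fin n → ZMod 2) - (T ∩ Df x).card := by
      rw [← h13]; push_cast; ring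
    rw [h14]
    by_cases hu : (hammingNorm (x : Fin n → ZMod 2) : ℝ) ≤ u
    · have h15 := hT x (Finset.mem_filter.2 ⟨Finset.mem_univ _, x.2, hx, hu⟩)
      have := hmin x x.2 hx
      linarith
    · push Not at hu
      have h16 : ((T ∩ Df x).card : ℝ) ≤ t := by
        rw [← hTP.2]
        exact_mod_cast Finset.card_le_card Finset.inter_subset_left
      linarith
  have hginj : Function.Injective g := by
    rw [injective_iff_map_eq_zero]
    intro x hx
    by_contra hne
    have h1 := hbig x (fun h => hne (Subtype.ext h))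
    rw [hx, hammingNorm_zero, Nat.cast_zero] at h1
    linarith
  rw [← LinearMap.finrank_range_of_inj hginj]
  refine finrank_le_K _ ?_
  rintro y ⟨x, rfl⟩ hy
  rw [Nat.ceil_le]
  refine hbig x fun h => hy ?_
  have : x = 0 := Subtype.ext h
  rw [this, map_zero]

theorem neighbours_lin {δ : ℝ} (h0 : 0 < δ) (h1 : δ < 1 / 2) {ε : ℝ} (hε0 : 0 < ε)
    (hε : ε ≤ δ * rate (fun n d => 2 ^ K n d) δ / 8) :
    ∀ᶠ n : ℕ in atTop, ∀ C : Submodule (ZMod 2) (Fin n → ZMod 2),
      (∀ x ∈ C, x ≠ 0 → δ * n ≤ hammingNorm x) →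
      (1 - ε / 4) * rate (fun n d => 2 ^ K n d) δ * n < Module.finrank (ZMod 2) C →
      (2 : ℝ) ^ (δ * rate (fun n d => 2 ^ K n d) δ ^ 2 / 80 * ε * n) ≤
        Nat.card {x : Fin n → ZMod 2 // x ∈ C ∧ x ≠ 0 ∧ (hammingNorm x : ℝ) ≤ (δ + ε) * n} := by
  filter_upwards [main_rate good_K h0 h1 hε0 hε] with n hn C hC hdim
  obtain ⟨t, r, τ, htn, hτ0, h2, h3, h4, h5, h6⟩ := hn
  by_contra hcon
  push Not at hcon
  have hkey := puncture_lin htn C h2 h3 hC hcon.le h4 h5 hτ0
  have h7 : (2 : ℝ) ^ (Module.finrank (ZMod 2) C : ℝ) ≤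
      2 ^ ((1 - ε / 4) * rate (fun n d => 2 ^ K n d) δ * n) := by
    refine le_trans ?_ h6
    rw [Real.rpow_natCast]
    have h8 : (2 : ℝ) ^ Module.finrank (ZMod 2) C ≤ 2 ^ K (n - t) ⌈δ * n - r⌉₊ :=
      pow_le_pow_right₀ (by norm_num) hkey
    push_cast
    have h9 : (0 : ℝ) < 2 ^ K (n - t) ⌈δ * n - r⌉₊ := by positivity
    linarith
  have h8 := (Real.rpow_le_rpow_left_iff (by norm_num : (1 : ℝ) < 2)).1 h7
  linarith

end Pool.Agent.K9h1.MD
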